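import Pool.Agent.U41.PH.Stm
import Pool.Agent.U41.OD.TW

/-! Project PH: the base point. -/

set_option autoImplicit false
set_option linter.unusedSectionVars false
set_option linter.unusedVariables false

namespace Pool.Agent.U41.PH

open Pool.Agent.H918R2.Quad Pool.Agent.TH214.RM Pool.Agent.U41.OD MvPolynomial

theorem spec_of_hom {n d k : ℕ} (ex : Fin k ≃ Idx n d) (F : MvPolynomial (Fin (n + 2)) ℤ)
    (hF : F.IsHomogeneous d) :
    spec ex (Fin.cons (coeff (Finsupp.single 0 d) F) fun i => coeff (ex i).1 F) = F := by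
  classical
  ext m
  have h1 : coeff m (C (coeff (Finsupp.single 0 d) F) * X 0 ^ d : MvPolynomial (Fin (n + 2)) ℤ) =
      if m = Finsupp.single 0 d then coeff (Finsupp.single 0 d) F else 0 := by
    rw [coeff_C_mul, coeff_X_pow]
    by_cases h : m = Finsupp.single 0 d
    · rw [if_pos h, if_pos h.symm, mul_one]
    · rw [if_neg h, if_neg (Ne.symm h), mul_zero]
  have h2 : coeff m (form ex fun i => coeff (ex i).1 F) =
      if m.degree = d ∧ m ≠ Finsupp.single 0 d then coeff m F else 0 := by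
    unfold form
    rw [coeff_sum]
    by_cases h : m.degree = d ∧ m ≠ Finsupp.single 0 d
    · rw [if_pos h, Finset.sum_eq_single (ex.symm ⟨m, h⟩)]
      · rw [Equiv.apply_symm_apply, coeff_monomial, if_pos rfl]
        change coeff (ex (ex.symm ⟨m, h⟩)).1 F = coeff m F
        rw [Equiv.apply_symm_apply]
      · intro i _ hi
        rw [coeff_monomial, if_neg]
        intro h3
        apply hi
        rw [Equiv.eq_symm_apply]
        exact Subtype.ext h3
      · exact fun h => absurd (Finset.mem_univ _) h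
    · rw [if_neg h]
      refine Finset.sum_eq_zero fun i _ => ?_
      rw [coeff_monomial, if_neg]
      intro h3
      apply h
      rw [← h3]
      exact (ex i).2
  unfold spec member
  simp only [Fin.cons_succ, Fin.cons_zero]
  rw [coeff_add, h2, h1]
  by_cases hm : m.degree = d
  · by_cases h0 : m = Finsupp.single 0 d
    · rw [if_neg (fun h => h.2 h0), if_pos h0, zero_add, h0]
    · rw [if_pos ⟨hm, h0⟩, if_neg h0, add_zero]
  · rw [if_neg (fun h => hm h.1), if_neg, add_zero]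
    · exact (hF.coeff_eq_zero hm).symm
    · intro h
      apply hm
      rw [h, Finsupp.degree_single]

theorem int_notMem_sq (n : ℕ) (hn : Squarefree n) (𝔭 : Ideal ℤ) (hp : 𝔭.IsPrime) :
    (n : ℤ) ∉ 𝔭 ^ 2 := by
  intro h
  obtain ⟨a, ha⟩ := (IsPrincipalIdealRing.principal 𝔭).principal
  have ha' : 𝔭 = Ideal.span {a} := ha
  rw [ha', Ideal.span_singleton_pow, Ideal.mem_span_singleton, pow_two] at h
  have h2 : Squarefree (n : ℤ) := Int.squarefree_natCast.2 hn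
  have h3 := h2 a h
  exact hp.ne_top (by rw [ha']; exact Ideal.span_singleton_eq_top.2 h3)

theorem int_add_pow_notMem (n : ℕ) (hn : Squarefree n) (𝔭 : Ideal ℤ) (hp : 𝔭.IsPrime)
    (p : ℕ) (hp' : p.Prime) (hpn : p ∣ n) (hp𝔭 : (p : ℤ) ∈ 𝔭) (e : ℤ) :
    (n : ℤ) + e ^ p ∉ 𝔭 ^ 2 := by
  intro h
  have hnp : (n : ℤ) ∈ 𝔭 := by
    obtain ⟨m, rfl⟩ := hpn
    rw [Nat.cast_mul]
    exact 𝔭.mul_mem_right _ hp𝔭
  have h1 : e ^ p ∈ 𝔭 := by
    have h2 := 𝔭.sub_mem (Ideal.pow_le_self (by norm_num) h) hnp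
    rwa [add_sub_cancel_left] at h2
  have h2 : e ∈ 𝔭 := hp.mem_of_pow_mem _ h1
  have h3 : e ^ p ∈ 𝔭 ^ 2 := Ideal.pow_le_pow_right hp'.two_le (Ideal.pow_mem_pow h2 p)
  have h4 := (𝔭 ^ 2).sub_mem h h3
  rw [add_sub_cancel_right] at h4
  exact int_notMem_sq n hn 𝔭 hp h4

theorem crit_chain_int (n d : ℕ) (hd : 3 ≤ d) (b : ℕ) (hb : Squarefree b)
    (hbd : ∀ p : ℕ, p.Prime → p ∣ d - 1 → p ∣ b) (𝔭 : Ideal ℤ) (hp : 𝔭.IsPrime) (h0 : 𝔭 ≠ ⊥) :
    Crit 𝔭 (chainF n d (b : ℤ)) := by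
  have hm : 𝔭.IsMaximal := Ideal.IsPrime.isMaximal hp h0
  have hfin : Finite (ℤ ⧸ 𝔭) := Ideal.finiteQuotientOfFreeOfNeBot 𝔭 h0
  have h1 : Reg 𝔭 (C (b : ℤ) * X 0 ^ d : MvPolynomial (Fin (0 + 1)) ℤ) :=
    reg_zero 𝔭 hm d _ (int_notMem_sq b hb 𝔭 hp)
  have h2 : Reg 𝔭 (sect (C (b : ℤ) * X 0 ^ d : MvPolynomial (Fin (0 + 1)) ℤ)) :=
    fun s => s.elim0
  have h3 : Wild 𝔭 d (C (b : ℤ) * X 0 ^ d : MvPolynomial (Fin (0 + 1)) ℤ) :=
    wild_zero 𝔭 hfin d _ fun p hp' hpd hp𝔭 c =>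
      int_add_pow_notMem b hb 𝔭 hp p hp' (hbd p hp' hpd) hp𝔭 c
  have key : ∀ n, ∃ F₀ : MvPolynomial (Fin (n + 1)) ℤ, F₀.IsHomogeneous d ∧
      chainF n d (b : ℤ) = up d F₀ ∧ Crit 𝔭 (up d F₀) := by
    intro n
    induction n with
    | zero =>
      exact ⟨C (b : ℤ) * X 0 ^ d, isHomogeneous_zero d _, chainF_zero d _,
        crit_susp2 𝔭 d hd _ (isHomogeneous_zero d _) h2.crit h1.crit h3⟩
    | succ n ih =>
      obtain ⟨F₀, hF₀, h4, h5⟩ := ih
      refine ⟨chainF n d (b : ℤ), chainF_hom n d hd _, chainF_succ n d _, ?_⟩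
      rw [h4]
      exact crit_up 𝔭 d hd F₀ hF₀ h5
  obtain ⟨F₀, _, h4, h5⟩ := key n
  rw [h4]
  exact h5

theorem BP_ok : S_BP := by
  intro n d k ex hd
  let b : ℕ := ∏ p ∈ (d - 1).primeFactors, p
  have hb : Squarefree b := by
    refine Finset.squarefree_prod_of_pairwise_isCoprime ?_ ?_
    · intro p hp q hq hpq
      exact Nat.coprime_iff_isRelPrime.1 ((Nat.coprime_primes (Nat.prime_of_mem_primeFactors hp)
        (Nat.prime_of_mem_primeFactors hq)).2 hpq)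
    · exact fun p hp => (Nat.prime_of_mem_primeFactors hp).squarefree
  have hbd : ∀ p : ℕ, p.Prime → p ∣ d - 1 → p ∣ b := by
    intro p hp hpd
    exact Finset.dvd_prod_of_mem _ (Nat.mem_primeFactors.2 ⟨hp, hpd, by omega⟩)
  refine ⟨Fin.cons (coeff (Finsupp.single 0 d) (chainF n d (b : ℤ)))
    fun i => coeff (ex i).1 (chainF n d (b : ℤ)), fun p hp => ?_⟩
  · rw [spec_of_hom ex (chainF n d (b : ℤ)) (chainF_hom n d hd _)]
    refine crit_chain_int n d hd b hb hbd _ ?_ ?_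
    · rw [Ideal.span_singleton_prime (by exact_mod_cast hp.ne_zero)]
      exact Nat.prime_iff_prime_int.1 hp
    · rw [Ne, Ideal.span_singleton_eq_bot]
      exact_mod_cast hp.ne_zero

end Pool.Agent.U41.PH
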