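import Pool.Agent.U41.PH.Stm0

/-! Project PH, package C1 (helper41). -/

set_option autoImplicit false

namespace Pool.Agent.U41.PH

theorem class_card (p : ℕ) (hp : 0 < p) (v : ℤ) (H : ℕ) :
    (((Finset.Icc (-(H : ℤ)) H).filter fun t => t ≡ v [ZMOD (p : ℤ)]).card : ℝ) ≤
      (2 * (H : ℝ) + 1) / p + 1 := by
  have hIco : Finset.Icc (-(H : ℤ)) H = Finset.Ico (-(H : ℤ)) (H + 1) := by
    ext x
    simp only [Finset.mem_Icc, Finset.mem_Ico]
    omega
  rw [hIco]
  have hp' : (0 : ℤ) < (p : ℤ) := by exact_mod_cast hp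
  have h1 := Int.Ico_filter_modEq_card (-(H : ℤ)) (H + 1) hp' v
  have hpR : (0 : ℚ) < (p : ℚ) := by exact_mod_cast hp
  have h2 : (((Finset.Ico (-(H : ℤ)) (H + 1)).filter fun t => t ≡ v [ZMOD (p : ℤ)]).card : ℚ) ≤
      (2 * (H : ℚ) + 1) / p + 1 := by
    have h3 : (((Finset.Ico (-(H : ℤ)) (H + 1)).filter fun t => t ≡ v [ZMOD (p : ℤ)]).card : ℚ) =
        ((max (⌈(((H : ℤ) + 1 - v : ℤ) : ℚ) / ((p : ℤ) : ℚ)⌉ -
          ⌈((-(H : ℤ) - v : ℤ) : ℚ) / ((p : ℤ) : ℚ)⌉) 0 : ℤ) : ℚ) := by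
      have h4 := congrArg (fun z : ℤ => (z : ℚ)) h1
      simp only [Int.cast_natCast] at h4
      rw [h4]
      push_cast
      rfl
    rw [h3]
    have h5 := Int.ceil_lt_add_one ((((H : ℤ) + 1 - v : ℤ) : ℚ) / ((p : ℤ) : ℚ))
    have h6 := Int.le_ceil (((-(H : ℤ) - v : ℤ) : ℚ) / ((p : ℤ) : ℚ))
    have h7 : ((((H : ℤ) + 1 - v : ℤ) : ℚ) / ((p : ℤ) : ℚ)) -
        (((-(H : ℤ) - v : ℤ) : ℚ) / ((p : ℤ) : ℚ)) = (2 * (H : ℚ) + 1) / p := by
      rw [← sub_div]
      congr 1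
      push_cast
      ring
    have h8 : (0 : ℚ) ≤ (2 * (H : ℚ) + 1) / p := by positivity
    rw [Int.cast_max]
    refine max_le ?_ ?_
    · push_cast at h5 h6 h7 ⊢
      linarith
    · simp only [Int.cast_zero]
      linarith
  have h9 : ((((Finset.Ico (-(H : ℤ)) (H + 1)).filter
      fun t => t ≡ v [ZMOD (p : ℤ)]).card : ℚ) : ℝ) ≤ (((2 * (H : ℚ) + 1) / p + 1 : ℚ) : ℝ) := by
    exact_mod_cast h2
  push_cast at h9
  exact h9

theorem C1_ok : S_C1 := by
  classical
  intro f p M a H hp hpM hf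
  have : Fact p.Prime := ⟨hp⟩
  set f' : Polynomial (ZMod p) := f.map (Int.castRingHom (ZMod p)) with hf'
  have hf0 : f' ≠ 0 := by
    obtain ⟨i, hi⟩ := hf
    intro h
    apply hi
    have h1 := congrArg (fun q => Polynomial.coeff q i) h
    simp only [hf', Polynomial.coeff_map, Polynomial.coeff_zero] at h1
    rw [← ZMod.intCast_zmod_eq_zero_iff_dvd] at *
    exact h1
  set A := (Finset.Icc (-(H : ℤ)) H).filter fun t => (p : ℤ) ∣ f.eval (a + M * t) with hA
  have hmap : ∀ t ∈ A, ((a + M * t : ℤ) : ZMod p) ∈ f'.roots.toFinset := by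
    intro t ht
    rw [hA, Finset.mem_filter] at ht
    rw [Multiset.mem_toFinset, Polynomial.mem_roots hf0, Polynomial.IsRoot.def]
    have h1 : f'.eval ((a + M * t : ℤ) : ZMod p) = ((f.eval (a + M * t) : ℤ) : ZMod p) := by
      rw [hf']
      exact (Polynomial.eval_intCast_map (Int.castRingHom (ZMod p)) f (a + M * t)).trans rfl
    rw [h1]
    exact (ZMod.intCast_zmod_eq_zero_iff_dvd _ _).2 ht.2
  have hfib : ∀ r ∈ f'.roots.toFinset,
      ((A.filter fun t => ((a + M * t : ℤ) : ZMod p) = r).card : ℝ) ≤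
        (2 * (H : ℝ) + 1) / p + 1 := by
    intro r _
    by_cases hne : (A.filter fun t => ((a + M * t : ℤ) : ZMod p) = r).Nonempty
    · obtain ⟨v, hv⟩ := hne
      refine le_trans ?_ (class_card p hp.pos v H)
      rw [Nat.cast_le]
      refine Finset.card_le_card fun t ht => ?_
      rw [Finset.mem_filter] at ht hv ⊢
      refine ⟨(Finset.mem_filter.1 ht.1).1, ?_⟩
      have h1 := ht.2.trans hv.2.symm
      push_cast at h1
      have h2 : (M : ZMod p) * (t : ZMod p) = M * (v : ZMod p) := add_left_cancel h1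
      have hM : (M : ZMod p) ≠ 0 := by
        rw [Ne, ZMod.natCast_eq_zero_iff]
        exact hpM
      have h3 := mul_left_cancel₀ hM h2
      exact (ZMod.intCast_eq_intCast_iff _ _ _).1 h3
    · rw [Finset.not_nonempty_iff_eq_empty] at hne
      rw [hne, Finset.card_empty, Nat.cast_zero]
      positivity
  have h1 : (A.card : ℝ) ≤ ∑ r ∈ f'.roots.toFinset, ((2 * (H : ℝ) + 1) / p + 1) := by
    rw [Finset.card_eq_sum_card_fiberwise hmap, Nat.cast_sum]
    exact Finset.sum_le_sum hfib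
  refine h1.trans ?_
  rw [Finset.sum_const, nsmul_eq_mul]
  refine mul_le_mul_of_nonneg_right ?_ (by positivity)
  rw [Nat.cast_le]
  exact (Multiset.toFinset_card_le _).trans ((Polynomial.card_roots' f').trans
    Polynomial.natDegree_map_le)

end Pool.Agent.U41.PH
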