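import Pool.Agent.U41.PH.Stm

/-! Project PH: the coefficients indexed by all monomials. -/

set_option autoImplicit false
set_option linter.unusedSectionVars false
set_option linter.unusedVariables false

namespace Pool.Agent.U41.PH

open Pool.Agent.H918R2.Quad Pool.Agent.TH214.RM Pool.Agent.U41.OD MvPolynomial

theorem finite_exps (m d : ℕ) : Finite {α : Fin m →₀ ℕ // α.degree = d} :=
  Set.Finite.to_subtype (Set.Finite.subset (Finsupp.finite_of_degree_le (σ := Fin m) d)
    fun α (h : α.degree = d) => h.le)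

theorem finite_Idx (n d : ℕ) : Finite (Idx n d) :=
  Set.Finite.to_subtype (Set.Finite.subset (Finsupp.finite_of_degree_le (σ := Fin (n + 2)) d)
    fun α (h : α.degree = d ∧ α ≠ Finsupp.single 0 d) => h.1.le)

/-- All exponents: `x_0 ^ d` and the others. -/
noncomputable def exFun {n d k : ℕ} (ex : Fin k ≃ Idx n d) (i : Fin (k + 1)) :
    {α : Fin (n + 2) →₀ ℕ // α.degree = d} :=
  Fin.cases (motive := fun _ => {α : Fin (n + 2) →₀ ℕ // α.degree = d})
    ⟨Finsupp.single 0 d, Finsupp.degree_single _ _⟩ (fun j => ⟨(ex j).1, (ex j).2.1⟩) i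

theorem exFun_zero {n d k : ℕ} (ex : Fin k ≃ Idx n d) :
    (exFun ex 0).1 = Finsupp.single 0 d := rfl

theorem exFun_succ {n d k : ℕ} (ex : Fin k ≃ Idx n d) (j : Fin k) :
    (exFun ex j.succ).1 = (ex j).1 := rfl

theorem exFun_bij {n d k : ℕ} (ex : Fin k ≃ Idx n d) : Function.Bijective (exFun ex) := by
  constructor
  · intro i j h
    have h' := congrArg Subtype.val h
    revert h'
    refine Fin.cases ?_ (fun i' => ?_) i <;> refine Fin.cases ?_ (fun j' => ?_) j
    · exact fun _ => rfl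
    · intro h'
      rw [exFun_zero, exFun_succ] at h'
      exact absurd h'.symm (ex j').2.2
    · intro h'
      rw [exFun_zero, exFun_succ] at h'
      exact absurd h' (ex i').2.2
    · intro h'
      rw [exFun_succ, exFun_succ] at h'
      rw [ex.injective (Subtype.ext h')]
  · intro α
    by_cases h : α.1 = Finsupp.single 0 d
    · exact ⟨0, Subtype.ext h.symm⟩
    · refine ⟨(ex.symm ⟨α.1, α.2, h⟩).succ, Subtype.ext ?_⟩
      rw [exFun_succ, Equiv.apply_symm_apply]

/-- The enumeration of all exponents. -/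
noncomputable def exEquiv {n d k : ℕ} (ex : Fin k ≃ Idx n d) :
    Fin (k + 1) ≃ {α : Fin (n + 2) →₀ ℕ // α.degree = d} :=
  Equiv.ofBijective (exFun ex) (exFun_bij ex)

theorem exEquiv_zero {n d k : ℕ} (ex : Fin k ≃ Idx n d) :
    (exEquiv ex 0).1 = Finsupp.single 0 d := rfl

theorem exEquiv_succ {n d k : ℕ} (ex : Fin k ≃ Idx n d) (j : Fin k) :
    (exEquiv ex j.succ).1 = (ex j).1 := rfl

/-- The form with the coefficients `a`. -/
noncomputable def allForm {n d : ℕ} (a : {α : Fin (n + 2) →₀ ℕ // α.degree = d} → ℤ) :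
    MvPolynomial (Fin (n + 2)) ℤ :=
  ∑ᶠ α, monomial α.1 (a α)

theorem allForm_hom {n d : ℕ} (a : {α : Fin (n + 2) →₀ ℕ // α.degree = d} → ℤ) :
    (map (algebraMap ℤ ℚ) (allForm a)).IsHomogeneous d := by
  have := finite_exps (n + 2) d
  have : Fintype {α : Fin (n + 2) →₀ ℕ // α.degree = d} := Fintype.ofFinite _
  refine IsHomogeneous.map ?_ _
  unfold allForm
  rw [finsum_eq_sum_of_fintype]
  exact IsHomogeneous.sum _ _ _ fun α _ => isHomogeneous_monomial _ α.2

theorem allForm_eq {n d k : ℕ} (ex : Fin k ≃ Idx n d) (x : Fin (k + 1) → ℤ) :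
    allForm (fun α => x ((exEquiv ex).symm α)) = spec ex x := by
  unfold allForm spec member form
  rw [← finsum_comp_equiv (exEquiv ex)]
  simp only [Equiv.symm_apply_apply]
  rw [finsum_eq_sum_of_fintype, Fin.sum_univ_succ]
  have h1 : monomial (exEquiv ex 0).1 (x 0) = (C (x 0) * X 0 ^ d : MvPolynomial (Fin (n + 2)) ℤ) := by
    rw [exEquiv_zero]
    exact (C_mul_X_pow_eq_monomial (s := (0 : Fin (n + 2))) (a := x 0) (n := d)).symm
  rw [h1]
  exact add_comm _ _

theorem cnt_eq {n d k : ℕ} (ex : Fin k ≃ Idx n d) (H : ℕ)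
    (P : MvPolynomial (Fin (n + 2)) ℤ → Prop) :
    cnt (k + 1) H (fun x => P (spec ex x)) =
      Set.ncard {a : {α : Fin (n + 2) →₀ ℕ // α.degree = d} → ℤ |
        (∀ α, |a α| ≤ H) ∧ P (allForm a)} := by
  classical
  unfold cnt
  rw [← Set.ncard_coe_finset]
  refine Set.ncard_congr (fun x _ => fun α => x ((exEquiv ex).symm α)) ?_ ?_ ?_
  · intro x hx
    rw [Finset.mem_coe, Finset.mem_filter, box, Fintype.mem_piFinset] at hx
    refine ⟨fun α => ?_, ?_⟩
    · have h1 := hx.1 ((exEquiv ex).symm α)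
      rw [Finset.mem_Icc] at h1
      exact abs_le.2 h1
    · rw [allForm_eq]
      exact hx.2
  · intro x y _ _ h
    funext i
    have h1 := congrFun h (exEquiv ex i)
    simpa using h1
  · intro a ha
    refine ⟨fun i => a (exEquiv ex i), ?_, ?_⟩
    · rw [Finset.mem_coe, Finset.mem_filter, box, Fintype.mem_piFinset]
      refine ⟨fun i => ?_, ?_⟩
      · rw [Finset.mem_Icc]
        exact abs_le.1 (ha.1 _)
      · rw [← allForm_eq]
        simp only [Equiv.apply_symm_apply]
        exact ha.2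
    · funext α
      simp

theorem cnt_fun {n d k : ℕ} (ex : Fin k ≃ Idx n d) (H : ℕ) (P : (Fin (k + 1) → ℤ) → Prop) :
    cnt (k + 1) H P =
      Set.ncard {a : {α : Fin (n + 2) →₀ ℕ // α.degree = d} → ℤ |
        (∀ α, |a α| ≤ H) ∧ P (fun i => a (exEquiv ex i))} := by
  classical
  unfold cnt
  rw [← Set.ncard_coe_finset]
  refine Set.ncard_congr (fun x _ => fun α => x ((exEquiv ex).symm α)) ?_ ?_ ?_
  · intro x hx
    rw [Finset.mem_coe, Finset.mem_filter, box, Fintype.mem_piFinset] at hx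
    refine ⟨fun α => ?_, ?_⟩
    · have h1 := hx.1 ((exEquiv ex).symm α)
      rw [Finset.mem_Icc] at h1
      exact abs_le.2 h1
    · simp only [Equiv.symm_apply_apply]
      exact hx.2
  · intro x y _ _ h
    funext i
    have h1 := congrFun h (exEquiv ex i)
    simpa using h1
  · intro a ha
    refine ⟨fun i => a (exEquiv ex i), ?_, ?_⟩
    · rw [Finset.mem_coe, Finset.mem_filter, box, Fintype.mem_piFinset]
      refine ⟨fun i => ?_, ha.2⟩
      rw [Finset.mem_Icc]
      exact abs_le.1 (ha.1 _)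
    · funext α
      simp

theorem card_box (k H : ℕ) : (cnt k H (fun _ => True) : ℝ) = (2 * (H : ℝ) + 1) ^ k := by
  have h2 : (box k H).card = (2 * H + 1) ^ k := by
    rw [box, Fintype.card_piFinset]
    simp only [Int.card_Icc, Finset.prod_const, Finset.card_univ, Fintype.card_fin]
    congr 1
    omega
  have h3 : cnt k H (fun _ => True) = (2 * H + 1) ^ k := by
    rw [← h2]
    unfold cnt
    refine congrArg Finset.card ?_
    exact @Finset.filter_true_of_mem _ _ (fun _ => Classical.propDecidable _) _ fun _ _ => trivial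
  rw [h3]
  push_cast
  ring

/-- The statement on proportions for all forms. -/
theorem proportion (h : S_FIN) (n d : ℕ) (hd : 3 ≤ d) : ∃ δ : ℝ, 0 < δ ∧ ∃ H₀ : ℕ, ∀ H ≥ H₀,
    δ * (Set.ncard {a : {α : Fin (n + 2) →₀ ℕ // α.degree = d} → ℤ | ∀ α, |a α| ≤ H} : ℝ) ≤
      Set.ncard {a : {α : Fin (n + 2) →₀ ℕ // α.degree = d} → ℤ | (∀ α, |a α| ≤ H) ∧
        (Smooth (map (algebraMap ℤ ℚ) (allForm a)) ∧
          LocNode ℤ (map (algebraMap ℤ ℚ) (allForm a)))} := by
  have := finite_Idx n d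
  have : Fintype (Idx n d) := Fintype.ofFinite _
  let ex : Fin (Fintype.card (Idx n d)) ≃ Idx n d := (Fintype.equivFin _).symm
  obtain ⟨δ, hδ, H₀, hH⟩ := h ex hd
  refine ⟨δ, hδ, H₀, fun H hH' => ?_⟩
  have h1 := hH H hH'
  have h2 := cnt_eq ex H (fun _ => True)
  rw [cnt_eq ex H (fun F => Smooth (map (algebraMap ℤ ℚ) F) ∧
    LocNode ℤ (map (algebraMap ℤ ℚ) F))] at h1
  rw [← card_box, h2] at h1
  simpa using h1

end Pool.Agent.U41.PH
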