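import Pool.Agent.U678.PH.FA2
import Pool.Agent.U41.PH.Cnt

/-! Project PH: the proportion in residue classes which are good at the small primes. -/

set_option autoImplicit false
set_option linter.unusedSectionVars false
set_option linter.unusedVariables false

namespace Pool.Agent.U41.PH

open Pool.Agent.H918R2.Quad Pool.Agent.TH214.RM Pool.Agent.U41.OD MvPolynomial FA2

theorem count_eps (hC3 : S_C3) {k r : ℕ} (P : Fin r → ℕ → (Fin (k + 1) → ℤ) → Prop)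
    (hT : ∀ j, Tail (k + 1) (P j)) (E : MvPolynomial (Fin (k + 1)) ℤ) (hE : E ≠ 0)
    (ε : ℝ) (hε : 0 < ε) :
    ∃ Y₀ : ℕ, ∀ Y ≥ Y₀, ∀ (M : ℕ) (b : Fin (k + 1) → ℤ), Sm M Y →
      ∀ Good : (Fin (k + 1) → ℤ) → Prop, (∀ y, eval (pt M b y) E ≠ 0 →
      (∀ j p, p.Prime → Y < p → ¬ P j p (pt M b y)) → Good y) →
      ∃ H₀ : ℕ, ∀ H ≥ H₀, (1 - ε) * (2 * (H : ℝ) + 1) ^ (k + 1) ≤ cnt (k + 1) H Good := by
  classical
  have hr : (0 : ℝ) < ε / (2 * ((r : ℝ) + 1)) := by positivity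
  choose Y0 hY0 using fun j => hT j _ hr
  refine ⟨∑ j, Y0 j, fun Y hYY M b hMS Good hgood => ?_⟩
  have hYj : ∀ j, Y0 j ≤ Y := fun j => by
    have := Finset.single_le_sum (f := Y0) (fun i _ => Nat.zero_le _) (Finset.mem_univ j)
    omega
  have hM0 : M ≠ 0 := hMS.1
  choose Hj hHj using fun j => hY0 j Y (hYj j) M b hMS
  obtain ⟨T, hT'⟩ := exists_nat_ge (4 * (E.totalDegree : ℝ) / ε)
  set H1 : ℕ := (∑ j, Hj j) + T with hH1
  have hH1j : ∀ j, Hj j ≤ H1 := fun j => by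
    have := Finset.single_le_sum (f := Hj) (fun i _ => Nat.zero_le _) (Finset.mem_univ j)
    omega
  refine ⟨H1, fun H' hH' => ?_⟩
  have e1 : cnt (k + 1) H' (fun _ => True) ≤ cnt (k + 1) H' Good +
      (cnt (k + 1) H' (fun y => eval (pt M b y) E = 0) +
        ∑ j, cnt (k + 1) H' (fun y => ∃ p : ℕ, p.Prime ∧ Y < p ∧ P j p (pt M b y))) := by
    refine le_trans (cnt_mono _ _ (Q := fun y => Good y ∨ (eval (pt M b y) E = 0 ∨
      ∃ j, ∃ p : ℕ, p.Prime ∧ Y < p ∧ P j p (pt M b y))) ?_) ?_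
    · intro y _ _
      by_cases h1 : eval (pt M b y) E = 0
      · exact Or.inr (Or.inl h1)
      by_cases h2 : ∃ j, ∃ p : ℕ, p.Prime ∧ Y < p ∧ P j p (pt M b y)
      · exact Or.inr (Or.inr h2)
      · refine Or.inl (hgood y h1 fun j p hp hYp hP => h2 ⟨j, p, hp, hYp, hP⟩)
    · refine (cnt_or _ _ _ _).trans (Nat.add_le_add_left ((cnt_or _ _ _ _).trans
        (Nat.add_le_add_left (cnt_exists _ _ _) _)) _)
  rw [cnt_true] at e1
  have e2 : ((2 * (H' : ℝ) + 1) ^ (k + 1)) ≤ (cnt (k + 1) H' Good : ℝ) +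
      ((cnt (k + 1) H' (fun y => eval (pt M b y) E = 0) : ℝ) +
        ∑ j, (cnt (k + 1) H' (fun y => ∃ p : ℕ, p.Prime ∧ Y < p ∧ P j p (pt M b y)) : ℝ)) := by
    exact_mod_cast e1
  have e3 := hC3 (k + 1) E M b H' hM0 hE
  rw [Nat.add_sub_cancel] at e3
  have e4 : ∑ j, (cnt (k + 1) H' (fun y => ∃ p : ℕ, p.Prime ∧ Y < p ∧
      P j p (pt M b y)) : ℝ) ≤ ∑ _j : Fin r, ε / (2 * ((r : ℝ) + 1)) *
        (2 * (H' : ℝ) + 1) ^ (k + 1) :=
    Finset.sum_le_sum fun j _ => hHj j H' ((hH1j j).trans hH')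
  rw [Finset.sum_const, Finset.card_univ, Fintype.card_fin, nsmul_eq_mul] at e4
  have hpos : (0 : ℝ) < 2 * (H' : ℝ) + 1 := by positivity
  have e5 : (r : ℝ) * (ε / (2 * ((r : ℝ) + 1)) * (2 * (H' : ℝ) + 1) ^ (k + 1)) ≤
      ε / 2 * (2 * (H' : ℝ) + 1) ^ (k + 1) := by
    rw [← mul_assoc]
    refine mul_le_mul_of_nonneg_right ?_ (by positivity)
    rw [← mul_div_assoc, div_le_div_iff₀ (by positivity) (by norm_num)]
    nlinarith [hε]
  have e6 : 2 * (E.totalDegree : ℝ) * (2 * (H' : ℝ) + 1) ^ k ≤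
      ε / 2 * (2 * (H' : ℝ) + 1) ^ (k + 1) := by
    rw [pow_succ' (2 * (H' : ℝ) + 1) k, ← mul_assoc]
    refine mul_le_mul_of_nonneg_right ?_ (by positivity)
    have h1 : (T : ℝ) ≤ H' := by
      have h2 : T ≤ H' := by omega
      exact_mod_cast h2
    have h3 : 4 * (E.totalDegree : ℝ) ≤ ε * H' := by
      rw [div_le_iff₀ hε] at hT'
      nlinarith
    nlinarith
  linarith

/-- The proportion in residue classes which are good at the small primes. -/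
theorem str (hFA1 : S_FA1) (hS' : ∀ k, Sieve' k) (hC3 : S_C3) {n d k : ℕ} (ex : Fin k ≃ Idx n d)
    (hd : 3 ≤ d) (ε : ℝ) (hε : 0 < ε) : ∃ Y₀ : ℕ, ∀ Y ≥ Y₀, ∀ (M : ℕ) (b : Fin (k + 1) → ℤ),
      Sm M Y → (∀ (y : Fin (k + 1) → ℤ) (p : ℕ), p.Prime → p ≤ Y →
        LocAt (Ideal.span {(p : ℤ)}) (map (algebraMap ℤ ℚ) (spec ex (pt M b y)))) →
      ∃ H₀ : ℕ, ∀ H ≥ H₀, (1 - ε) * (2 * (H : ℝ) + 1) ^ (k + 1) ≤ cnt (k + 1) H fun y =>
        Smooth (map (algebraMap ℤ ℚ) (spec ex (pt M b y))) ∧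
          LocNode ℤ (map (algebraMap ℤ ℚ) (spec ex (pt M b y))) := by
  obtain ⟨r, h, W, E, e, hE, he, hirr, hx⟩ := hFA1 ex hd
  obtain ⟨Y₀, hY₀⟩ := count_eps hC3 (fun j p x => (p : ℤ) ∣ eval x (rename Fin.succ (h j)) ∧
    (p : ℤ) ∣ eval x (W j)) (fun j => hS' k (h j) (W j) (hirr j).1 (hirr j).2) E hE ε hε
  refine ⟨Y₀ + e.natAbs, fun Y hY M b hMS hloc => hY₀ Y (by omega) M b hMS _ ?_⟩
  intro y hy hgood
  obtain ⟨hsm, hl⟩ := hx (pt M b y) hy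
  refine ⟨hsm, ?_⟩
  rw [locNode_iff]
  intro 𝔭 hp hp0
  obtain ⟨p, hpp, rfl⟩ := prime_ideal hp hp0
  by_cases hpY : p ≤ Y
  · exact hloc y p hpp hpY
  · refine hl p hpp ?_ fun j => hgood j p hpp (by omega)
    intro hpe
    have h2 : p ∣ e.natAbs := Int.natCast_dvd.mp hpe
    have h3 := Nat.le_of_dvd (Int.natAbs_pos.mpr he) h2
    omega

end Pool.Agent.U41.PH
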