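import Pool.Agent.U41.PH.Stm

/-!
Project PH (helper41), second part: all number fields simultaneously. Statements of the packages.
-/

set_option autoImplicit false

open NumberField

namespace Pool.Agent.U41.PH

open Pool.Agent.H918R2.Quad Pool.Agent.TH214.RM Pool.Agent.U41.OD MvPolynomial

/-- Package FA1E: the outcome of the geometric part over all number fields. -/
def S_FA1E : Prop := ∀ {n d k : ℕ} (ex : Fin k ≃ Idx n d), 3 ≤ d →
  ∃ (r : ℕ) (h : Fin r → MvPolynomial (Fin k) ℤ) (W : Fin r → MvPolynomial (Fin (k + 1)) ℤ)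
    (E : MvPolynomial (Fin (k + 1)) ℤ) (e : ℤ), E ≠ 0 ∧ e ≠ 0 ∧
    (∀ j, Irreducible (h j) ∧ ¬ rename Fin.succ (h j) ∣ W j) ∧
    ∀ x : Fin (k + 1) → ℤ, eval x E ≠ 0 → ∀ (K : Type) [Field K] [NumberField K],
      Smooth (map (algebraMap ℤ K) (spec ex x)) ∧
      ∀ (p : ℕ) (𝔭 : Ideal (𝓞 K)), p.Prime → 𝔭.IsPrime → (p : 𝓞 K) ∈ 𝔭 → ¬ (p : ℤ) ∣ e →
        (∀ j, ¬ ((p : ℤ) ∣ eval x (rename Fin.succ (h j)) ∧ (p : ℤ) ∣ eval x (W j))) →
        LocAt 𝔭 (map (algebraMap ℤ K) (spec ex x))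

/-- The hypersurface `F = 0` is smooth over the field with `p` elements. -/
def SmAt (p : ℕ) {m : ℕ} (F : MvPolynomial (Fin m) ℤ) : Prop :=
  ∀ s : Fin m, (1 : MvPolynomial {j : Fin m // j ≠ s} ℤ) ∈
    Ideal.span (insert (C (p : ℤ)) (insert (deh s F) (Set.range fun j => pderiv j (deh s F))))

/-- Package BPE: for every `Y` there is a form which is smooth modulo all primes `p ≤ Y`. -/
def S_BPE : Prop := ∀ {n d k : ℕ} (ex : Fin k ≃ Idx n d), 3 ≤ d → ∀ Y : ℕ,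
  ∃ b : Fin (k + 1) → ℤ, ∀ p : ℕ, p.Prime → p ≤ Y → SmAt p (spec ex b)

end Pool.Agent.U41.PH
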