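import Pool.Agent.U41.PH.Eps
import Pool.Agent.U41.PH.StmE

/-! Project PH, second part: the counting, all number fields simultaneously. -/

set_option autoImplicit false
set_option linter.unusedSectionVars false
set_option linter.unusedVariables false

open NumberField

namespace Pool.Agent.U41.PH

open Pool.Agent.H918R2.Quad Pool.Agent.TH214.RM Pool.Agent.U41.OD MvPolynomial FA2

/-- The form is smooth over all number fields and has good equations at all primes. -/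
def AllGood {n : ℕ} (F : MvPolynomial (Fin (n + 2)) ℤ) : Prop :=
  ∀ (K : Type) [Field K] [NumberField K], Smooth (map (algebraMap ℤ K) F) ∧
    LocNode (𝓞 K) (map (algebraMap ℤ K) F)

/-- For all number fields: if the form has good equations at the primes over the `p ≤ Y`, then it is
smooth and has good equations at all primes. -/
def GoodIf {n : ℕ} (Y : ℕ) (F : MvPolynomial (Fin (n + 2)) ℤ) : Prop :=
  ∀ (K : Type) [Field K] [NumberField K],
    (∀ (p : ℕ) (𝔭 : Ideal (𝓞 K)), p.Prime → p ≤ Y → 𝔭.IsPrime → (p : 𝓞 K) ∈ 𝔭 →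
      LocAt 𝔭 (map (algebraMap ℤ K) F)) →
    Smooth (map (algebraMap ℤ K) F) ∧ LocNode (𝓞 K) (map (algebraMap ℤ K) F)

theorem exists_prime_mem {K : Type} [Field K] [NumberField K] (𝔭 : Ideal (𝓞 K)) (hp : 𝔭.IsPrime)
    (h0 : 𝔭 ≠ ⊥) : ∃ p : ℕ, p.Prime ∧ (p : 𝓞 K) ∈ 𝔭 := by
  have h1 : (𝔭.comap (algebraMap ℤ (𝓞 K))).IsPrime := Ideal.comap_isPrime _ _
  have h2 : 𝔭.comap (algebraMap ℤ (𝓞 K)) ≠ ⊥ :=
    fun h => h0 (Ideal.eq_bot_of_comap_eq_bot h)
  obtain ⟨p, hpp, hp'⟩ := prime_ideal h1 h2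
  refine ⟨p, hpp, ?_⟩
  have h3 : (p : ℤ) ∈ 𝔭.comap (algebraMap ℤ (𝓞 K)) := by
    rw [hp']
    exact Ideal.mem_span_singleton_self _
  rw [Ideal.mem_comap] at h3
  simpa using h3

theorem strE (hFA1 : S_FA1E) (hS' : ∀ k, Sieve' k) (hC3 : S_C3) {n d k : ℕ} (ex : Fin k ≃ Idx n d)
    (hd : 3 ≤ d) (ε : ℝ) (hε : 0 < ε) : ∃ Y₀ : ℕ, ∀ Y ≥ Y₀, ∀ (M : ℕ) (b : Fin (k + 1) → ℤ),
      Sm M Y → ∃ H₀ : ℕ, ∀ H ≥ H₀, (1 - ε) * (2 * (H : ℝ) + 1) ^ (k + 1) ≤
        cnt (k + 1) H fun y => GoodIf Y (spec ex (pt M b y)) := by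
  obtain ⟨r, h, W, E, e, hE, he, hirr, hx⟩ := hFA1 ex hd
  obtain ⟨Y₀, hY₀⟩ := count_eps hC3 (fun j p x => (p : ℤ) ∣ eval x (rename Fin.succ (h j)) ∧
    (p : ℤ) ∣ eval x (W j)) (fun j => hS' k (h j) (W j) (hirr j).1 (hirr j).2) E hE ε hε
  refine ⟨Y₀ + e.natAbs, fun Y hY M b hMS => hY₀ Y (by omega) M b hMS _ ?_⟩
  intro y hy hgood K _ _ hloc
  obtain ⟨hsm, hl⟩ := hx (pt M b y) hy K
  refine ⟨hsm, ?_⟩
  rw [locNode_iff]
  intro 𝔭 hp hp0
  obtain ⟨p, hpp, hpm⟩ := exists_prime_mem 𝔭 hp hp0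
  by_cases hpY : p ≤ Y
  · exact hloc p 𝔭 hpp hpY hp hpm
  · refine hl p 𝔭 hpp hp hpm ?_ fun j => hgood j p hpp (by omega)
    intro hpe
    have h2 : p ∣ e.natAbs := Int.natCast_dvd.mp hpe
    have h3 := Nat.le_of_dvd (Int.natAbs_pos.mpr he) h2
    omega

theorem crit_of_smAt {K : Type} [Field K] [NumberField K] {n : ℕ} (F : MvPolynomial (Fin (n + 2)) ℤ)
    (p : ℕ) (h : SmAt p F) (𝔭 : Ideal (𝓞 K)) (hp : (p : 𝓞 K) ∈ 𝔭) :
    Crit 𝔭 (map (algebraMap ℤ (𝓞 K)) F) := by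
  intro s Q hQ hC hH
  left
  by_contra hcon
  push Not at hcon
  have h1 := h s
  have h2 : Ideal.span (insert (C (p : ℤ)) (insert (deh s F)
      (Set.range fun j => pderiv j (deh s F)))) ≤
      Q.comap (map (algebraMap ℤ (𝓞 K)) : MvPolynomial {j : Fin (n + 2) // j ≠ s} ℤ →+* _) := by
    rw [Ideal.span_le]
    rintro z (rfl | rfl | ⟨j, rfl⟩)
    · change map (algebraMap ℤ (𝓞 K)) (C (p : ℤ)) ∈ Q
      rw [map_C, hC]
      simpa using hp
    · change map (algebraMap ℤ (𝓞 K)) (deh s F) ∈ Q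
      rw [map_deh]
      exact hH
    · change map (algebraMap ℤ (𝓞 K)) (pderiv j (deh s F)) ∈ Q
      rw [← pderiv_map, map_deh]
      exact hcon j
  have h3 := h2 h1
  rw [Ideal.mem_comap, map_one] at h3
  exact hQ.ne_top ((Ideal.eq_top_iff_one _).2 h3)

theorem smAt_add {m : ℕ} (p : ℕ) (F R : MvPolynomial (Fin m) ℤ) (M : ℤ) (hM : (p : ℤ) ∣ M)
    (h : SmAt p F) : SmAt p (F + C M * R) := by
  intro s
  obtain ⟨t, rfl⟩ := hM
  have h1 : Ideal.span (insert (C (p : ℤ)) (insert (deh s F)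
      (Set.range fun j => pderiv j (deh s F)))) ≤
      Ideal.span (insert (C (p : ℤ)) (insert (deh s (F + C ((p : ℤ) * t) * R))
      (Set.range fun j => pderiv j (deh s (F + C ((p : ℤ) * t) * R))))) := by
    have hdeh : deh s (F + C ((p : ℤ) * t) * R) = deh s F + C (p : ℤ) * (C t * deh s R) := by
      unfold deh
      simp only [map_add, map_mul, aeval_C, algebraMap_eq]
      ring
    have hpI : (C (p : ℤ) : MvPolynomial {j : Fin m // j ≠ s} ℤ) ∈
        Ideal.span (insert (C (p : ℤ)) (insert (deh s (F + C ((p : ℤ) * t) * R))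
        (Set.range fun j => pderiv j (deh s (F + C ((p : ℤ) * t) * R))))) :=
      Ideal.subset_span (Set.mem_insert _ _)
    rw [Ideal.span_le]
    rintro z (rfl | rfl | ⟨j, rfl⟩)
    · exact hpI
    · have h2 : deh s F = deh s (F + C ((p : ℤ) * t) * R) - C (p : ℤ) * (C t * deh s R) := by
        rw [hdeh]
        ring
      change deh s F ∈ Ideal.span _
      rw [h2]
      exact Ideal.sub_mem _ (Ideal.subset_span (Set.mem_insert_of_mem _ (Set.mem_insert _ _)))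
        (Ideal.mul_mem_right _ _ hpI)
    · have h2 : pderiv j (deh s F) = pderiv j (deh s (F + C ((p : ℤ) * t) * R)) -
          C (p : ℤ) * pderiv j (C t * deh s R) := by
        rw [hdeh, map_add, pderiv_C_mul]
        ring
      change pderiv j (deh s F) ∈ Ideal.span _
      rw [h2]
      exact Ideal.sub_mem _ (Ideal.subset_span (Set.mem_insert_of_mem _
        (Set.mem_insert_of_mem _ ⟨j, rfl⟩))) (Ideal.mul_mem_right _ _ hpI)
  exact h1 (h s)

theorem finE (hFA1 : S_FA1E) (hS' : ∀ k, Sieve' k) (hC3 : S_C3) (hBP : S_BPE) {n d k : ℕ}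
    (ex : Fin k ≃ Idx n d) (hd : 3 ≤ d) :
    ∃ δ : ℝ, 0 < δ ∧ ∃ H₀ : ℕ, ∀ H ≥ H₀, δ * (2 * (H : ℝ) + 1) ^ (k + 1) ≤
      cnt (k + 1) H fun x => AllGood (spec ex x) := by
  classical
  obtain ⟨Y, hY⟩ := strE hFA1 hS' hC3 ex hd (1 / 2) (by norm_num)
  obtain ⟨b, hb⟩ := hBP ex hd Y
  set S : Finset ℕ := (Finset.range (Y + 1)).filter Nat.Prime with hSdef
  set M : ℕ := ∏ p ∈ S, p with hMdef
  have hM0 : M ≠ 0 := by
    rw [hMdef, Finset.prod_ne_zero_iff]
    intro p hp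
    exact (Finset.mem_filter.mp hp).2.ne_zero
  have hMS : Sm M Y := by
    refine ⟨hM0, ?_⟩
    intro q hq hqd
    obtain ⟨p, hp, hqp⟩ := (hq.prime.dvd_finsetProd_iff _).mp hqd
    have h2 := (Nat.prime_dvd_prime_iff_eq hq (Finset.mem_filter.mp hp).2).mp hqp
    have h3 := Finset.mem_range.mp (Finset.mem_filter.mp hp).1
    omega
  obtain ⟨H1, hH1⟩ := hY Y le_rfl M b hMS
  have hcls : ∀ y, GoodIf Y (spec ex (pt M b y)) → AllGood (spec ex (pt M b y)) := by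
    intro y hy K _ _
    refine hy K fun p 𝔭 hpp hpY hp hpm => ?_
    have h1 : SmAt p (spec ex (pt M b y)) := by
      have h2 : spec ex (pt M b y) = spec ex b + C (M : ℤ) * spec ex y := by
        linear_combination spec_pt ex M b y
      have h3 : p ∣ M := Finset.dvd_prod_of_mem (fun p => p)
        (Finset.mem_filter.mpr ⟨Finset.mem_range.mpr (by omega), hpp⟩)
      have h4 := smAt_add p (spec ex b) (spec ex y) (M : ℤ) (by exact_mod_cast h3)
        (hb p hpp hpY)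
      exact (congrArg (SmAt p) h2).mpr h4
    have h2 := locAt_of_crit (K := K) 𝔭 _ (crit_of_smAt _ p h1 𝔭 hpm)
    have h3 : map (algebraMap (𝓞 K) K) (map (algebraMap ℤ (𝓞 K)) (spec ex (pt M b y))) =
        map (algebraMap ℤ K) (spec ex (pt M b y)) := by
      rw [map_map]
      congr 1
    rwa [h3] at h2
  obtain ⟨B, hB⟩ : ∃ B : ℕ, ∀ i, |b i| ≤ B := by
    refine ⟨∑ i, (b i).natAbs, fun i => ?_⟩
    have h1 : (b i).natAbs ≤ ∑ i, (b i).natAbs :=
      Finset.single_le_sum (f := fun i => (b i).natAbs) (fun i _ => Nat.zero_le _)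
        (Finset.mem_univ i)
    rw [Int.abs_eq_natAbs]
    exact_mod_cast h1
  have key : ∀ H' ≥ H1, (1 / 2 : ℝ) * (2 * (H' : ℝ) + 1) ^ (k + 1) ≤
      cnt (k + 1) H' (fun y => AllGood (spec ex (pt M b y))) := by
    intro H' hH'
    have h1 := hH1 H' hH'
    have h2 : (1 : ℝ) - 1 / 2 = 1 / 2 := by norm_num
    rw [h2] at h1
    refine h1.trans ?_
    rw [Nat.cast_le]
    exact cnt_mono _ _ fun y _ hy => hcls y hy
  have hMr : (0 : ℝ) < M := by exact_mod_cast Nat.pos_of_ne_zero hM0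
  refine ⟨1 / 2 * (1 / (4 * (M : ℝ))) ^ (k + 1), by positivity, B + M * H1 + 2 * B + M, ?_⟩
  intro H hH
  set H' : ℕ := (H - B) / M with hH'
  have f1 : M * H' ≤ H - B := Nat.mul_div_le _ _
  have f2 : H - B < M * (H' + 1) := Nat.lt_mul_div_succ _ (Nat.pos_of_ne_zero hM0)
  have f3 : H1 ≤ H' := by
    rw [hH', Nat.le_div_iff_mul_le (Nat.pos_of_ne_zero hM0), mul_comm]
    omega
  have f4 : B + M * H' ≤ H := by omega
  have f5 := cnt_inj (k + 1) H H' M hM0 b B hB f4 (fun x => AllGood (spec ex x))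
  have f6 : (cnt (k + 1) H' (fun y => AllGood (spec ex (pt M b y))) : ℝ) ≤
      cnt (k + 1) H (fun x => AllGood (spec ex x)) := by
    exact_mod_cast f5
  refine le_trans ?_ ((key H' f3).trans f6)
  rw [mul_assoc, ← mul_pow]
  refine mul_le_mul_of_nonneg_left ?_ (by norm_num)
  refine pow_le_pow_left₀ (by positivity) ?_ _
  rw [one_div, inv_mul_le_iff₀ (by positivity)]
  have f7 : (H : ℝ) - B < M * ((H' : ℝ) + 1) := by
    have h1 : H < M * (H' + 1) + B := by omega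
    have h2 : (H : ℝ) < (M : ℝ) * ((H' : ℝ) + 1) + B := by exact_mod_cast h1
    linarith
  have f8 : (2 * B + M : ℝ) ≤ H := by
    have h1 : 2 * B + M ≤ H := by omega
    exact_mod_cast h1
  have f9 : (1 : ℝ) ≤ M := by exact_mod_cast Nat.one_le_iff_ne_zero.mpr hM0
  have f10 : 4 * (M : ℝ) * (2 * (H' : ℝ) + 1) = 8 * (M * ((H' : ℝ) + 1)) - 4 * M := by ring
  have f11 : (0 : ℝ) ≤ B := Nat.cast_nonneg _
  rw [f10]
  linarith

end Pool.Agent.U41.PH
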