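import Pool.Agent.U41.OD.Asm2

/-! Project PH: transport of the local conditions along an isomorphism of the base rings. -/

set_option autoImplicit false
set_option linter.unusedSectionVars false
set_option linter.unusedVariables false

open MvPolynomial NumberField
open scoped Pointwise

namespace Pool.Agent.U41.PH

open Pool.Agent.H918R2.Quad Pool.Agent.TH214.RM Pool.Agent.U41.OD

section

variable {O O' : Type} [CommRing O] [CommRing O'] (e : O ≃+* O')

theorem alt_transport (𝔭 : Ideal O') {ι : Type} [DecidableEq ι] (s : ι) (H : MvPolynomial ι O)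
    (h : ∀ Q : Ideal (MvPolynomial {j : ι // j ≠ s} O), Q.IsPrime →
      (∀ r : O, C r ∈ Q ↔ r ∈ 𝔭.comap e.toRingHom) → deh s H ∈ Q →
      (∃ j, pderiv j (deh s H) ∉ Q) ∨ ∀ h, h ∉ Q → h * deh s H ∉ Q ^ 2)
    (Q : Ideal (MvPolynomial {j : ι // j ≠ s} O')) (hQ : Q.IsPrime)
    (hC : ∀ r : O', C r ∈ Q ↔ r ∈ 𝔭) (hH : deh s (map e.toRingHom H) ∈ Q) :
    (∃ j, pderiv j (deh s (map e.toRingHom H)) ∉ Q) ∨
      ∀ h, h ∉ Q → h * deh s (map e.toRingHom H) ∉ Q ^ 2 := by
  set φ : MvPolynomial {j : ι // j ≠ s} O →+* MvPolynomial {j : ι // j ≠ s} O' :=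
    map e.toRingHom with hφ
  set ψ : MvPolynomial {j : ι // j ≠ s} O' →+* MvPolynomial {j : ι // j ≠ s} O :=
    map e.symm.toRingHom with hψ
  have hφψ : ∀ P, φ (ψ P) = P := by
    intro P
    rw [hφ, hψ, map_map]
    have : e.toRingHom.comp e.symm.toRingHom = RingHom.id O' := by
      ext x
      simp
    rw [this, map_id]
  have hψφ : ∀ P, ψ (φ P) = P := by
    intro P
    rw [hφ, hψ, map_map]
    have : e.symm.toRingHom.comp e.toRingHom = RingHom.id O := by
      ext x
      simp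
    rw [this, map_id]
  have hdeh : φ (deh s H) = deh s (map e.toRingHom H) := map_deh _ _ _
  have hp : (Q.comap φ).IsPrime := Ideal.comap_isPrime _ _
  rcases h (Q.comap φ) hp (fun r => by
      rw [Ideal.mem_comap, hφ, map_C, hC]
      rfl) (by rw [Ideal.mem_comap, hdeh]; exact hH) with ⟨j, hj⟩ | h1
  · left
    refine ⟨j, fun h2 => hj ?_⟩
    rw [Ideal.mem_comap]
    have h3 : φ (pderiv j (deh s H)) = pderiv j (deh s (map e.toRingHom H)) := by
      rw [← hdeh, hφ, pderiv_map]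
    rw [h3]
    exact h2
  · right
    intro g hg hgQ
    refine h1 (ψ g) (by rw [Ideal.mem_comap, hφψ]; exact hg) ?_
    have h2 : (Q ^ 2).map ψ ≤ (Q.comap φ) ^ 2 := by
      rw [Ideal.map_pow]
      refine Ideal.pow_right_mono ?_ 2
      rw [Ideal.map_le_iff_le_comap]
      intro z hz
      rw [Ideal.mem_comap, Ideal.mem_comap, hφψ]
      exact hz
    have h3 := h2 (Ideal.mem_map_of_mem ψ hgQ)
    rw [map_mul, ← hdeh, hψφ] at h3
    exact h3

theorem crit_transport (𝔭 : Ideal O') {ι : Type} [DecidableEq ι] (H : MvPolynomial ι O)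
    (h : Crit (𝔭.comap e.toRingHom) H) : Crit 𝔭 (map e.toRingHom H) := by
  intro s Q hQ hC hH
  exact alt_transport e 𝔭 s H (fun Q' hQ' hC' hH' => h s Q' hQ' hC' hH') Q hQ hC hH

theorem mem_pow_transport (𝔭 : Ideal O') (k : ℕ) (r : O) :
    e r ∈ 𝔭 ^ k ↔ r ∈ (𝔭.comap e.toRingHom) ^ k := by
  have h1 : ∀ (O₁ O₂ : Type) [CommRing O₁] [CommRing O₂] (f : O₁ ≃+* O₂) (I : Ideal O₂) (r : O₂),
      r ∈ I ^ k → f.symm r ∈ (I.comap f.toRingHom) ^ k := by
    intro O₁ O₂ _ _ f I r hr
    have h2 : (I ^ k).map f.symm.toRingHom ≤ (I.comap f.toRingHom) ^ k := by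
      rw [Ideal.map_pow]
      refine Ideal.pow_right_mono ?_ k
      rw [Ideal.map_le_iff_le_comap]
      intro z hz
      rw [Ideal.mem_comap, Ideal.mem_comap]
      change f (f.symm z) ∈ I
      rwa [f.apply_symm_apply]
    exact h2 (Ideal.mem_map_of_mem _ hr)
  constructor
  · intro h
    have h2 := h1 _ _ e 𝔭 (e r) h
    rwa [e.symm_apply_apply] at h2
  · intro h
    have h2 : ((𝔭.comap e.toRingHom) ^ k).map e.toRingHom ≤ 𝔭 ^ k := by
      rw [Ideal.map_pow]
      refine Ideal.pow_right_mono ?_ k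
      rw [Ideal.map_le_iff_le_comap]
    exact h2 (Ideal.mem_map_of_mem e.toRingHom h)

theorem node_transport (𝔭 : Ideal O') {n : ℕ} (H : MvPolynomial (Fin (n + 2)) O)
    (h : Node (𝔭.comap e.toRingHom) H) : Node 𝔭 (map e.toRingHom H) := by
  have hdeh : map e.toRingHom (deh 0 H) = deh 0 (map e.toRingHom H) := map_deh _ _ _
  refine ⟨fun h2 => h.two ?_, ?_, ?_, fun s hs Q hQ hC hH => alt_transport e 𝔭 s H
    (fun Q' hQ' hC' hH' => h.off s hs Q' hQ' hC' hH') Q hQ hC hH⟩
  · rw [Ideal.mem_comap]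
    have : e.toRingHom 2 = 2 := map_ofNat _ 2
    rw [this]
    exact h2
  · obtain ⟨k, hk, h1, h2, h3⟩ := h.vals
    refine ⟨k, hk, ?_, ?_, fun l => ?_⟩
    · rw [← hdeh, constantCoeff_map]
      exact (mem_pow_transport e 𝔭 k _).2 h1
    · rw [← hdeh, constantCoeff_map]
      exact fun h4 => h2 ((mem_pow_transport e 𝔭 (k + 1) _).1 h4)
    · rw [← hdeh, coeff_map]
      exact (mem_pow_transport e 𝔭 k _).2 (h3 l)
  · intro l
    obtain ⟨δ, hδ, h1⟩ := h.quad l
    refine ⟨e δ, hδ, ?_⟩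
    have h2 := Ideal.mem_map_of_mem (map e.toRingHom) h1
    rw [Ideal.map_span, ← Set.range_comp] at h2
    have h3 : (fun j => pderiv j (homogeneousComponent 2 (deh 0 (map e.toRingHom H)))) =
        (map e.toRingHom ∘ fun j => pderiv j (homogeneousComponent 2 (deh 0 H))) := by
      funext j
      change _ = map e.toRingHom (pderiv j (homogeneousComponent 2 (deh 0 H)))
      rw [← pderiv_map, ← hdeh]
      congr 1
      ext m
      rw [coeff_map, coeff_homogeneousComponent, coeff_homogeneousComponent, coeff_map]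
      split_ifs
      · rfl
      · simp
    rw [h3]
    rw [map_mul, map_C, map_X] at h2
    exact h2

theorem locNode_transport {K : Type} [Field K] [Algebra O K] [Algebra O' K]
    (he : ∀ r, algebraMap O' K (e r) = algebraMap O K r) {n : ℕ}
    (G : MvPolynomial (Fin (n + 2)) K) (h : LocNode O G) : LocNode O' G := by
  intro 𝔭 hp h0
  have hp' : (𝔭.comap e.toRingHom).IsPrime := Ideal.comap_isPrime _ _
  have h0' : 𝔭.comap e.toRingHom ≠ ⊥ := by
    intro h1
    apply h0
    rw [eq_bot_iff]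
    intro z hz
    have h2 : e.symm z ∈ 𝔭.comap e.toRingHom := by
      rw [Ideal.mem_comap]
      change e (e.symm z) ∈ 𝔭
      rwa [e.apply_symm_apply]
    rw [h1, Ideal.mem_bot] at h2
    rw [Ideal.mem_bot, ← e.apply_symm_apply z, h2, map_zero]
  obtain ⟨H, l, T, T', hl, hTT, hH, hcn⟩ := h _ hp' h0'
  refine ⟨map e.toRingHom H, l, T, T', hl, hTT, ?_, ?_⟩
  · have h2 : (algebraMap O' K).comp e.toRingHom = algebraMap O K := RingHom.ext he
    rw [map_map, h2, ← hH]
  · rcases hcn with h1 | h1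
    · exact Or.inl (crit_transport e 𝔭 H h1)
    · exact Or.inr (node_transport e 𝔭 H h1)

end

theorem locNode_ringOfIntegers {n : ℕ} (G : MvPolynomial (Fin (n + 2)) ℚ) (h : LocNode ℤ G) :
    LocNode (𝓞 ℚ) G := by
  refine locNode_transport Rat.ringOfIntegersEquiv.symm (fun r => ?_) G h
  have h1 : Rat.ringOfIntegersEquiv.symm r = (r : 𝓞 ℚ) := by
    rw [RingEquiv.symm_apply_eq, map_intCast]
    rfl
  rw [h1]
  simp

end Pool.Agent.U41.PH
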