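import Pool.Agent.U41.OD.Asm1
import Pool.Agent.U41.OD.Asm5
import Pool.Agent.U41.PH.Iso

/-! Project PH: the models, over the integers. -/

set_option autoImplicit false
set_option linter.unusedSectionVars false
set_option linter.unusedVariables false

open AlgebraicGeometry CategoryTheory CategoryTheory.Limits MvPolynomial NumberField
open scoped Pointwise

namespace Pool.Agent.U41.PH

open Pool.Agent.H918R2.Quad Pool.Agent.W418 Pool.Agent.TH214.RM Pool.Agent.U41.OD

theorem model_int (hGM : S_GM) {n : ℕ} (hn : 1 ≤ n)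
    (G : MvPolynomial (Fin (n + 2)) ℚ) (d : ℕ) (hd : 2 ≤ d) (hGd : G.IsHomogeneous d)
    (hsm : Smooth G) (hloc : LocNode ℤ G) {A : Type} [CommRing A] [Algebra ℚ A]
    (π : MvPolynomial (Fin (n + 2)) ℚ →ₐ[ℚ] A) (hπ : Function.Surjective π)
    (hker : RingHom.ker π = Ideal.span {G})
    (𝒜 : ℕ → Submodule ℚ A) [GradedAlgebra 𝒜]
    (h𝒜 : ∀ d, 𝒜 d = (homogeneousSubmodule (Fin (n + 2)) ℚ d).map π.toLinearMap)
    (Y : Scheme.{0}) (hY : Nonempty (Y ≅ Proj 𝒜)) : HasRegularModel Y := by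
  have hirr := irreducible_of_smooth hn G d (by omega) hGd hsm
  obtain ⟨F, _, _, x, b, hx0, hrel, hgen, htb⟩ := exists_ff G hirr d hGd
    (not_dvd_X G hirr.ne_zero d hd hGd)
  have hst : IsScalarTower ℤ ℚ F := inferInstance
  have hM : GoodModule ℤ x :=
    hGM (K := ℚ) G hirr d hd hGd hsm hloc x hx0 hrel hgen b htb
  obtain ⟨ε, hε, hεgen, hε1⟩ := exists_eps x hx0 hgen _ htb G hirr.prime d hGd hrel π hπ hker 𝒜 h𝒜
  exact hasRegularModel_of_goodModule (O := ℤ) 𝒜 ε hε hεgen x hε1 hM Y hY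

end Pool.Agent.U41.PH
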