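import Mathlib

/-!
Project PH (helper41): a positive proportion of all hypersurfaces over the rational numbers has
regular models. Statements of the packages of the sieve (Mathlib only).
-/

set_option autoImplicit false

namespace Pool.Agent.U41.PH

open MvPolynomial

/-- The integral points with coordinates of absolute value at most `H`. -/
noncomputable def box (k H : ℕ) : Finset (Fin k → ℤ) :=
  Fintype.piFinset fun _ => Finset.Icc (-(H : ℤ)) H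

open scoped Classical in
/-- The number of points of the box with the property `Q`. -/
noncomputable def cnt (k H : ℕ) (Q : (Fin k → ℤ) → Prop) : ℕ :=
  ((box k H).filter Q).card

/-- The point `a + M x`. -/
def pt {k : ℕ} (M : ℕ) (a x : Fin k → ℤ) : Fin k → ℤ := fun i => a i + M * x i

/-- All prime divisors of `M` are at most `Y`. -/
def Sm (M Y : ℕ) : Prop := M ≠ 0 ∧ ∀ p : ℕ, p.Prime → p ∣ M → p ≤ Y

/-- The proportion of the `x` such that `a + M x` has the property `P p` for some prime `p > Y` is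
small for large `Y`, uniformly in `a` and in `M` with prime divisors at most `Y`. -/
def Tail (k : ℕ) (P : ℕ → (Fin k → ℤ) → Prop) : Prop :=
  ∀ ε : ℝ, 0 < ε → ∃ Y₀ : ℕ, ∀ Y ≥ Y₀, ∀ (M : ℕ) (a : Fin k → ℤ), Sm M Y →
    ∃ H₀ : ℕ, ∀ H ≥ H₀,
      (cnt k H (fun x => ∃ p : ℕ, p.Prime ∧ Y < p ∧ P p (pt M a x)) : ℝ) ≤
        ε * (2 * (H : ℝ) + 1) ^ k

/-- Package C1: roots of a polynomial in one variable modulo `p`. -/
def S_C1 : Prop := ∀ (f : Polynomial ℤ) (p M : ℕ) (a : ℤ) (H : ℕ), p.Prime → ¬ p ∣ M →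
  (∃ i, ¬ (p : ℤ) ∣ f.coeff i) →
  (((Finset.Icc (-(H : ℤ)) H).filter fun t => (p : ℤ) ∣ f.eval (a + M * t)).card : ℝ) ≤
    f.natDegree * ((2 * (H : ℝ) + 1) / p + 1)

/-- Package C2: zeros of a polynomial in several variables modulo `p`. -/
def S_C2 : Prop := ∀ (k : ℕ) (f : MvPolynomial (Fin k) ℤ) (p M : ℕ) (a : Fin k → ℤ) (H : ℕ),
  p.Prime → ¬ p ∣ M → (∃ m, ¬ (p : ℤ) ∣ coeff m f) →
  (cnt k H (fun x => (p : ℤ) ∣ eval (pt M a x) f) : ℝ) ≤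
    f.totalDegree * (2 * (H : ℝ) + 1) ^ (k - 1) * ((2 * (H : ℝ) + 1) / p + 1)

/-- Package C3: zeros of a polynomial in several variables. -/
def S_C3 : Prop := ∀ (k : ℕ) (f : MvPolynomial (Fin k) ℤ) (M : ℕ) (a : Fin k → ℤ) (H : ℕ),
  M ≠ 0 → f ≠ 0 →
  (cnt k H (fun x => eval (pt M a x) f = 0) : ℝ) ≤
    2 * f.totalDegree * (2 * (H : ℝ) + 1) ^ (k - 1)

/-- Package C4: large prime divisors of the values. -/
def S_C4 : Prop := ∀ (k : ℕ) (f : MvPolynomial (Fin k) ℤ) (M : ℕ) (a : Fin k → ℤ),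
  ∃ H₀ : ℕ, ∀ H ≥ H₀, ∀ x ∈ box k H, eval (pt M a x) f ≠ 0 → ∀ S : Finset ℕ,
    (∀ p ∈ S, p.Prime ∧ H < p ∧ (p : ℤ) ∣ eval (pt M a x) f) → S.card ≤ f.totalDegree + 1

/-- Package SMd: the primes of middle size. -/
def S_SMd : Prop := ∀ (k : ℕ) (h g : MvPolynomial (Fin k) ℤ) (W : MvPolynomial (Fin (k + 1)) ℤ)
  (i : ℕ), g = (finSuccEquiv ℤ k W).coeff i → Irreducible h →
  ∃ (c : ℝ) (Y₀ : ℕ), 0 ≤ c ∧ ∀ Y ≥ Y₀, 0 < Y → ∀ (M : ℕ) (a : Fin (k + 1) → ℤ), Sm M Y →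
    ∀ H : ℕ, (cnt (k + 1) H (fun x => ∃ p : ℕ, p.Prime ∧ Y < p ∧ p ≤ 2 * H + 1 ∧
      (p : ℤ) ∣ eval (pt M a x) (rename Fin.succ h) ∧
      ¬ (p : ℤ) ∣ eval (pt M a x) (rename Fin.succ g) ∧ (p : ℤ) ∣ eval (pt M a x) W) : ℝ) ≤
      c / Y * (2 * (H : ℝ) + 1) ^ (k + 1)

/-- Package SLg: the large primes. -/
def S_SLg : Prop := ∀ (k : ℕ) (h g : MvPolynomial (Fin k) ℤ) (W : MvPolynomial (Fin (k + 1)) ℤ)
  (i : ℕ), g = (finSuccEquiv ℤ k W).coeff i →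
  ∃ c : ℝ, 0 ≤ c ∧ ∀ (Y M : ℕ) (a : Fin (k + 1) → ℤ), Sm M Y →
    ∃ H₀ : ℕ, ∀ H ≥ H₀, (cnt (k + 1) H (fun x => ∃ p : ℕ, p.Prime ∧ Y < p ∧ 2 * H + 1 < p ∧
      eval (pt M a x) (rename Fin.succ h) ≠ 0 ∧
      (p : ℤ) ∣ eval (pt M a x) (rename Fin.succ h) ∧
      ¬ (p : ℤ) ∣ eval (pt M a x) (rename Fin.succ g) ∧ (p : ℤ) ∣ eval (pt M a x) W) : ℝ) ≤
      c * (2 * (H : ℝ) + 1) ^ k

/-- The statement of the sieve in `k` variables. -/
def Sieve (k : ℕ) : Prop := ∀ h g : MvPolynomial (Fin k) ℤ, Irreducible h → ¬ h ∣ g →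
  Tail k (fun p x => (p : ℤ) ∣ eval x h ∧ (p : ℤ) ∣ eval x g)

/-- The statement of the sieve in `k + 1` variables, if the first polynomial does not contain the
variable `X 0`. -/
def Sieve' (k : ℕ) : Prop := ∀ (h : MvPolynomial (Fin k) ℤ) (W : MvPolynomial (Fin (k + 1)) ℤ),
  Irreducible h → ¬ rename Fin.succ h ∣ W →
  Tail (k + 1) (fun p x => (p : ℤ) ∣ eval x (rename Fin.succ h) ∧ (p : ℤ) ∣ eval x W)

/-- Package SV0. -/
def S_SV0 : Prop := Sieve 0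

/-- Package SV1. -/
def S_SV1 : Prop := ∀ k, Sieve k → Sieve' k

/-- Package SV2: elimination of the variable `X 0`. -/
def S_SV2 : Prop := ∀ k, Sieve' k → Sieve (k + 1)

theorem sieve (h0 : S_SV0) (h1 : S_SV1) (h2 : S_SV2) (k : ℕ) : Sieve k := by
  induction k with
  | zero => exact h0
  | succ k ih => exact h2 k (h1 k ih)

theorem sieve' (h0 : S_SV0) (h1 : S_SV1) (h2 : S_SV2) (k : ℕ) : Sieve' k :=
  h1 k (sieve h0 h1 h2 k)

/-- Package DE: derivations extend to algebraic extensions. -/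
def S_DE : Prop := ∀ {k : ℕ} {L : Type} [Field L] [CharZero L]
  (φ : MvPolynomial (Fin k) ℤ →+* L) (u : Fin k → L),
  (∀ f, φ f = 0 → ∑ i, φ (pderiv i f) * u i = 0) →
  (∀ z : L, ∃ p : Polynomial (MvPolynomial (Fin k) ℤ), p.map φ ≠ 0 ∧ (p.map φ).eval z = 0) →
  ∃ D : Derivation ℤ L L, ∀ f, D (φ f) = ∑ i, φ (pderiv i f) * u i

/-- Package PT: points with values in algebraic extensions. -/
def S_PT : Prop := ∀ {K σ : Type} [Field K] [Finite σ] (J : Ideal (MvPolynomial σ K))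
  (z : MvPolynomial σ K), z ∉ J.radical →
  ∃ (L : Type) (_ : Field L) (_ : Algebra K L), Algebra.IsAlgebraic K L ∧
    ∃ y : σ → L, (∀ P ∈ J, aeval y P = 0) ∧ aeval y z ≠ 0

end Pool.Agent.U41.PH
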