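import Pool.Agent.U41.OD.Asm2
import Pool.Agent.U41.OD.Stm3
import Pool.Agent.U41.PH.Stm0

/-!
Project PH (helper41): a positive proportion of all hypersurfaces over the rational numbers has
regular models. Statements of the geometric packages.
-/

set_option autoImplicit false

namespace Pool.Agent.U41.PH

open Pool.Agent.H918R2.Quad Pool.Agent.TH214.RM Pool.Agent.U41.OD MvPolynomial

/-- The exponents of the monomials of degree `d` in `n + 2` variables different from `x_0 ^ d`. -/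
abbrev Idx (n d : ℕ) : Type := {α : Fin (n + 2) →₀ ℕ // α.degree = d ∧ α ≠ Finsupp.single 0 d}

/-- The form with the coefficients `a` and without the monomial `x_0 ^ d`. -/
noncomputable def form {R : Type} [CommRing R] {n d k : ℕ} (ex : Fin k ≃ Idx n d) (a : Fin k → R) :
    MvPolynomial (Fin (n + 2)) R :=
  ∑ i : Fin k, monomial (ex i).1 (a i)

/-- The universal form without the monomial `x_0 ^ d`. -/
noncomputable def univ {n d k : ℕ} (ex : Fin k ≃ Idx n d) :
    MvPolynomial (Fin (n + 2)) (MvPolynomial (Fin k) ℤ) :=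
  form ex X

/-- The universal form; the coefficient of `x_0 ^ d` is the variable `X 0`. -/
noncomputable def full {n d k : ℕ} (ex : Fin k ≃ Idx n d) :
    MvPolynomial (Fin (n + 2)) (MvPolynomial (Fin (k + 1)) ℤ) :=
  member d (form ex fun i => X i.succ) (X 0)

/-- The form with the coefficients `x`; the coefficient of `x_0 ^ d` is `x 0`. -/
noncomputable def spec {n d k : ℕ} (ex : Fin k ≃ Idx n d) (x : Fin (k + 1) → ℤ) :
    MvPolynomial (Fin (n + 2)) ℤ :=
  member d (form ex fun i => x i.succ) (x 0)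

/-- Package U1: the universal form is generic: critical values. -/
def S_U1 : Prop := ∀ {n d k : ℕ} (ex : Fin k ≃ Idx n d), 2 ≤ d →
  ∀ {K : Type} [Field K] [Algebra (MvPolynomial (Fin k) ℤ) K]
  [IsFractionRing (MvPolynomial (Fin k) ℤ) K] (G : MvPolynomial (Fin (n + 2)) K),
  G = map (algebraMap (MvPolynomial (Fin k) ℤ) K) (univ ex) →
  ∀ l : {j : Fin (n + 2) // j ≠ 0},
    rename Sum.inl (X l : MvPolynomial {j : Fin (n + 2) // j ≠ 0} K) -
        rename Sum.inr (X l : MvPolynomial {j : Fin (n + 2) // j ≠ 0} K) ∈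
      (Ideal.span (insert (rename Sum.inl (deh 0 G) - rename Sum.inr (deh 0 G))
        ((Set.range fun j => rename Sum.inl (pderiv j (deh 0 G))) ∪
          (Set.range fun j => rename Sum.inr (pderiv j (deh 0 G)))) :
        Set (MvPolynomial ({j : Fin (n + 2) // j ≠ 0} ⊕ {j : Fin (n + 2) // j ≠ 0}) K))).radical

/-- Package U2: the universal form is generic: nondegenerate critical points. -/
def S_U2 : Prop := ∀ {n d k : ℕ} (ex : Fin k ≃ Idx n d), 2 ≤ d →
  ∀ {K : Type} [Field K] [Algebra (MvPolynomial (Fin k) ℤ) K]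
  [IsFractionRing (MvPolynomial (Fin k) ℤ) K] (G : MvPolynomial (Fin (n + 2)) K),
  G = map (algebraMap (MvPolynomial (Fin k) ℤ) K) (univ ex) →
  (1 : MvPolynomial {j : Fin (n + 2) // j ≠ 0} K) ∈
    Ideal.span (insert (hess (deh 0 G)).det (Set.range fun j => pderiv j (deh 0 G)))

/-- Package U3: the universal form is generic: smooth section. -/
def S_U3 : Prop := ∀ {n d k : ℕ} (ex : Fin k ≃ Idx n d), 2 ≤ d →
  ∀ {K : Type} [Field K] [Algebra (MvPolynomial (Fin k) ℤ) K]
  [IsFractionRing (MvPolynomial (Fin k) ℤ) K] (G : MvPolynomial (Fin (n + 2)) K),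
  G = map (algebraMap (MvPolynomial (Fin k) ℤ) K) (univ ex) →
  ∀ i : Fin (n + 2), i ≠ 0 → X i ∈
    (Ideal.span (insert (X 0) (insert G (Set.range fun j : {j : Fin (n + 2) // j ≠ 0} =>
      pderiv (j : Fin (n + 2)) G)))).radical

/-- Package CD: over the generic point of a prime divisor given by a polynomial without the variable
`X 0`, the universal form is smooth. -/
def S_CD : Prop := ∀ {n d k : ℕ} (ex : Fin k ≃ Idx n d), 2 ≤ d →
  ∀ h : MvPolynomial (Fin k) ℤ, Irreducible h → 0 < h.totalDegree →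
  ∀ {κ : Type} [Field κ] (φ : MvPolynomial (Fin (k + 1)) ℤ →+* κ),
  (∀ f, φ f = 0 ↔ rename Fin.succ h ∣ f) → (∀ z : κ, ∃ f g, φ g ≠ 0 ∧ z * φ g = φ f) →
  Smooth (map φ (full ex))

/-- Package NK: smoothness over a residue field. -/
def S_NK : Prop := ∀ {O κ : Type} [CommRing O] [IsDomain O] [Field κ] {m d : ℕ} (φ : O →+* κ)
  (F : MvPolynomial (Fin m) O), F.IsHomogeneous d → (∀ z : κ, ∃ f g, φ g ≠ 0 ∧ z * φ g = φ f) →
  Smooth (map φ F) →
  ∃ W : O, φ W ≠ 0 ∧ ∀ i : Fin m, ∃ M : ℕ,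
    (C W * X i ^ M : MvPolynomial (Fin m) O) ∈
      Ideal.span (Set.range fun j : Fin m => (pderiv j F : MvPolynomial (Fin m) O))

/-- Package SP: specialization of the certificate. -/
def S_SP : Prop := ∀ {O O' : Type} [CommRing O] [CommRing O'] (φ : O →+* O') {n : ℕ} (N : O)
  (G : MvPolynomial (Fin (n + 2)) O), Cert N G → Cert (φ N) (map φ G)

/-- The outcome of the geometric part: outside the zeros of `E` the form is smooth, and it is good at
all primes `p` not dividing `e` such that `p` does not divide both `h_j` and `W_j`, for all `j`. -/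
def S_FA1 : Prop := ∀ {n d k : ℕ} (ex : Fin k ≃ Idx n d), 3 ≤ d →
  ∃ (r : ℕ) (h : Fin r → MvPolynomial (Fin k) ℤ) (W : Fin r → MvPolynomial (Fin (k + 1)) ℤ)
    (E : MvPolynomial (Fin (k + 1)) ℤ) (e : ℤ), E ≠ 0 ∧ e ≠ 0 ∧
    (∀ j, Irreducible (h j) ∧ ¬ rename Fin.succ (h j) ∣ W j) ∧
    ∀ x : Fin (k + 1) → ℤ, eval x E ≠ 0 →
      Smooth (map (algebraMap ℤ ℚ) (spec ex x)) ∧
      ∀ p : ℕ, p.Prime → ¬ (p : ℤ) ∣ e →
        (∀ j, ¬ ((p : ℤ) ∣ eval x (rename Fin.succ (h j)) ∧ (p : ℤ) ∣ eval x (W j))) →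
        LocAt (Ideal.span {(p : ℤ)}) (map (algebraMap ℤ ℚ) (spec ex x))

/-- The statement on proportions. -/
def S_FIN : Prop := ∀ {n d k : ℕ} (ex : Fin k ≃ Idx n d), 3 ≤ d →
  ∃ δ : ℝ, 0 < δ ∧ ∃ H₀ : ℕ, ∀ H ≥ H₀, δ * (2 * (H : ℝ) + 1) ^ (k + 1) ≤
    cnt (k + 1) H fun x => Smooth (map (algebraMap ℤ ℚ) (spec ex x)) ∧
      LocNode ℤ (map (algebraMap ℤ ℚ) (spec ex x))

/-- There is a form with integral coefficients which is regular over all primes. -/
def S_BP : Prop := ∀ {n d k : ℕ} (ex : Fin k ≃ Idx n d), 3 ≤ d →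
  ∃ x : Fin (k + 1) → ℤ, ∀ p : ℕ, p.Prime → Crit (Ideal.span {(p : ℤ)}) (spec ex x)

/-- Package FA2: the counting at the end. -/
def S_FA2 : Prop := S_FA1 → (∀ k, Sieve' k) → S_C3 → S_PS → S_BP → S_FIN

end Pool.Agent.U41.PH
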