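import Pool.Agent.U41.OD.Fin
import Pool.Agent.U41.PH.BP
import Pool.Agent.U41.PH.Cnt
import Pool.Agent.U41.PH.Mod
import Pool.Agent.U41.PH.Eps
import Pool.Agent.U187.PH.SV2
import Pool.Agent.U208.PH.SP
import Pool.Agent.U375.PH.SLg
import Pool.Agent.U461.PH.SV1
import Pool.Agent.U491.PH.DE
import Pool.Agent.U638.PH.C34
import Pool.Agent.U678.PH.FA2
import Pool.Agent.U694.PH.PT
import Pool.Agent.U810.PH.U23
import Pool.Agent.U851.PH.C2
import Pool.Agent.U941.PH.SMd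
import Pool.Agent.U580.PH.FA1
import Pool.Agent.U750.PH.NK
import Pool.Agent.U460.PH.U1
import Pool.Agent.U41.PH.C1
import Pool.Agent.U653.PH.CD

/-! Project PH: end theorems. -/

set_option autoImplicit false
set_option linter.unusedSectionVars false
set_option linter.unusedVariables false

open MvPolynomial NumberField

namespace Pool.Agent.U41.PH

open Pool.Agent.H918R2.Quad Pool.Agent.TH214.RM Pool.Agent.U41.OD

theorem c3 : S_C3 := C3_ok (C2_ok C1_ok)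

theorem sv (k : ℕ) : Sieve' k :=
  sieve' SV0_ok (SV1_ok c3 (SMd_ok C1_ok (C2_ok C1_ok)) (SLg_ok C1_ok C4_ok)) SV2_ok k

theorem fa1 : S_FA1 :=
  FA1_ok (U1_ok DE_ok PT_ok) (U2_ok DE_ok PT_ok) (U3_ok DE_ok PT_ok) CL_ok pen
    (CD_ok DE_ok PT_ok) NK_ok SP_ok

theorem fin : S_FIN := FA2_ok fa1 sv c3 PS_ok BP_ok

/-- The second statement for all forms: the coefficients are indexed by all monomials. -/
theorem str_all (n d : ℕ) (hd : 3 ≤ d) (ε : ℝ) (hε : 0 < ε) : ∃ Y₀ : ℕ, ∀ Y ≥ Y₀,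
    ∀ (M : ℕ) (b : {α : Fin (n + 2) →₀ ℕ // α.degree = d} → ℤ), M ≠ 0 →
      (∀ p : ℕ, p.Prime → p ∣ M → p ≤ Y) →
      (∀ (y : {α : Fin (n + 2) →₀ ℕ // α.degree = d} → ℤ) (p : ℕ), p.Prime → p ≤ Y →
        LocAt (Ideal.span {(p : ℤ)}) (map (algebraMap ℤ ℚ) (allForm fun α => b α + M * y α))) →
      ∃ H₀ : ℕ, ∀ H ≥ H₀, (1 - ε) * (Set.ncard {y : {α : Fin (n + 2) →₀ ℕ // α.degree = d} → ℤ |
        ∀ α, |y α| ≤ H} : ℝ) ≤
        Set.ncard {y : {α : Fin (n + 2) →₀ ℕ // α.degree = d} → ℤ | (∀ α, |y α| ≤ H) ∧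
          (Smooth (map (algebraMap ℤ ℚ) (allForm fun α => b α + M * y α)) ∧
            LocNode ℤ (map (algebraMap ℤ ℚ) (allForm fun α => b α + M * y α)))} := by
  have := finite_Idx n d
  have : Fintype (Idx n d) := Fintype.ofFinite _
  let ex : Fin (Fintype.card (Idx n d)) ≃ Idx n d := (Fintype.equivFin _).symm
  obtain ⟨Y₀, hY₀⟩ := str fa1 sv c3 ex hd ε hε
  refine ⟨Y₀, fun Y hY M b hM hMY hloc => ?_⟩
  have key : ∀ y : {α : Fin (n + 2) →₀ ℕ // α.degree = d} → ℤ,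
      allForm (fun α => b α + M * y α) =
        spec ex (pt M (fun i => b (exEquiv ex i)) (fun i => y (exEquiv ex i))) := by
    intro y
    rw [← allForm_eq]
    simp only [pt, Equiv.apply_symm_apply]
  obtain ⟨H₀, hH₀⟩ := hY₀ Y hY M (fun i => b (exEquiv ex i)) ⟨hM, hMY⟩ (by
    intro y p hp hpY
    have h1 := hloc (fun α => y ((exEquiv ex).symm α)) p hp hpY
    rw [key] at h1
    simpa using h1)
  refine ⟨H₀, fun H hH => ?_⟩
  have h1 := hH₀ H hH
  rw [← card_box, cnt_fun ex H (fun _ => True), cnt_fun ex H] at h1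
  simp only [and_true] at h1
  refine h1.trans (le_of_eq ?_)
  congr 2
  ext y
  simp only [Set.mem_ofPred_eq]
  rw [key]

end Pool.Agent.U41.PH
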