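import Pool.Agent.U41.PH.FinE0
import Pool.Agent.U580.PH.FA1E
import Pool.Agent.U460.PH.BPE

/-! Project PH, second part: end theorems, without hypotheses. -/

set_option autoImplicit false

open MvPolynomial NumberField

namespace Pool.Agent.U41.PH

open Pool.Agent.H918R2.Quad Pool.Agent.TH214.RM Pool.Agent.U41.OD

theorem fa1E : S_FA1E :=
  FA1E_ok (U1_ok DE_ok PT_ok) (U2_ok DE_ok PT_ok) (U3_ok DE_ok PT_ok) CL_ok pen
    (CD_ok DE_ok PT_ok) NK_ok SP_ok

end Pool.Agent.U41.PH
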