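import Pool.Agent.U41.PH.Fin
import Pool.Agent.U41.PH.EpsE

/-! Project PH, second part: end theorems. -/

set_option autoImplicit false
set_option linter.unusedSectionVars false
set_option linter.unusedVariables false

open MvPolynomial NumberField

namespace Pool.Agent.U41.PH

open Pool.Agent.H918R2.Quad Pool.Agent.TH214.RM Pool.Agent.U41.OD

theorem allForm_homE {n d : ℕ} {K : Type} [Field K]
    (a : {α : Fin (n + 2) →₀ ℕ // α.degree = d} → ℤ) :
    (map (algebraMap ℤ K) (allForm a)).IsHomogeneous d := by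
  have := finite_exps (n + 2) d
  have : Fintype {α : Fin (n + 2) →₀ ℕ // α.degree = d} := Fintype.ofFinite _
  refine IsHomogeneous.map ?_ _
  unfold allForm
  rw [finsum_eq_sum_of_fintype]
  exact IsHomogeneous.sum _ _ _ fun α _ => isHomogeneous_monomial _ α.2

theorem proportionE (h1 : S_FA1E) (h2 : S_BPE) (n d : ℕ) (hd : 3 ≤ d) :
    ∃ δ : ℝ, 0 < δ ∧ ∃ H₀ : ℕ, ∀ H ≥ H₀,
    δ * (Set.ncard {a : {α : Fin (n + 2) →₀ ℕ // α.degree = d} → ℤ | ∀ α, |a α| ≤ H} : ℝ) ≤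
      Set.ncard {a : {α : Fin (n + 2) →₀ ℕ // α.degree = d} → ℤ | (∀ α, |a α| ≤ H) ∧
        AllGood (allForm a)} := by
  have := finite_Idx n d
  have : Fintype (Idx n d) := Fintype.ofFinite _
  let ex : Fin (Fintype.card (Idx n d)) ≃ Idx n d := (Fintype.equivFin _).symm
  obtain ⟨δ, hδ, H₀, hH⟩ := finE h1 sv c3 h2 ex hd
  refine ⟨δ, hδ, H₀, fun H hH' => ?_⟩
  have h3 := hH H hH'
  have h4 := cnt_eq ex H (fun _ => True)
  rw [cnt_eq ex H (fun F => AllGood F)] at h3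
  rw [← card_box, h4] at h3
  simpa using h3

theorem str_allE (h1 : S_FA1E) (n d : ℕ) (hd : 3 ≤ d) (ε : ℝ) (hε : 0 < ε) :
    ∃ Y₀ : ℕ, ∀ Y ≥ Y₀,
    ∀ (M : ℕ) (b : {α : Fin (n + 2) →₀ ℕ // α.degree = d} → ℤ), M ≠ 0 →
      (∀ p : ℕ, p.Prime → p ∣ M → p ≤ Y) →
      ∃ H₀ : ℕ, ∀ H ≥ H₀, (1 - ε) * (Set.ncard {y : {α : Fin (n + 2) →₀ ℕ // α.degree = d} → ℤ |
        ∀ α, |y α| ≤ H} : ℝ) ≤
        Set.ncard {y : {α : Fin (n + 2) →₀ ℕ // α.degree = d} → ℤ | (∀ α, |y α| ≤ H) ∧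
          GoodIf Y (allForm fun α => b α + M * y α)} := by
  have := finite_Idx n d
  have : Fintype (Idx n d) := Fintype.ofFinite _
  let ex : Fin (Fintype.card (Idx n d)) ≃ Idx n d := (Fintype.equivFin _).symm
  obtain ⟨Y₀, hY₀⟩ := strE h1 sv c3 ex hd ε hε
  refine ⟨Y₀, fun Y hY M b hM hMY => ?_⟩
  have key : ∀ y : {α : Fin (n + 2) →₀ ℕ // α.degree = d} → ℤ,
      allForm (fun α => b α + M * y α) =
        spec ex (pt M (fun i => b (exEquiv ex i)) (fun i => y (exEquiv ex i))) := by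
    intro y
    rw [← allForm_eq]
    simp only [pt, Equiv.apply_symm_apply]
  obtain ⟨H₀, hH₀⟩ := hY₀ Y hY M (fun i => b (exEquiv ex i)) ⟨hM, hMY⟩
  refine ⟨H₀, fun H hH => ?_⟩
  have h1 := hH₀ H hH
  rw [← card_box, cnt_fun ex H (fun _ => True), cnt_fun ex H] at h1
  simp only [and_true] at h1
  refine h1.trans (le_of_eq ?_)
  congr 2
  ext y
  simp only [Set.mem_ofPred_eq]
  rw [key]

end Pool.Agent.U41.PH
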